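import Mathlib
import Pool.Agent.H94.IC.Targets1

/-!
# Insulating cracks: the number of distinct zeros is generically maximal
-/

open MeasureTheory Set Filter Topology Metric
open scoped ENNReal NNReal ContDiff RealInnerProductSpace

namespace Pool.Agent.H11.IC

open Pool.Agent.H94.IC

/-- slices of `GH` functions are analytic -/
lemma slice_an (F : C3 → ℂ) (ρ c R : ℝ) (hF : GH (ball 0 ρ) F) (hc : |c| + R < ρ)
    (a b : ℂ) (h1 : ‖a‖ < ρ) (h2 : ‖b‖ < ρ) :
    AnalyticOnNhd ℂ (fun w : ℂ => F ![a, b, w]) (closedBall (c : ℂ) R) := by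
  have hd : DifferentiableOn ℂ (fun w : ℂ => F ![a, b, w]) (ball (0 : ℂ) ρ) := by
    intro w hw
    have hw' : ‖w‖ < ρ := by simpa using hw
    have hmem : (![a, b, w] : C3) ∈ ball (0 : C3) ρ := by
      rw [mem_ball_zero_iff, pi_norm_lt_iff (lt_of_le_of_lt (norm_nonneg _) h1)]
      intro i
      fin_cases i
      · simpa using h1
      · simpa using h2
      · simpa using hw'
    have h3 := hF.2 _ hmem ![0, 0, 1]
    have h4 : DifferentiableAt ℂ (fun t : ℂ => F (![a, b, w] + t • ![0, 0, 1])) (w - w) := by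
      rw [sub_self]; exact h3
    have h5 : DifferentiableAt ℂ (fun w' : ℂ => w' - w) w := by fun_prop
    have h6 := DifferentiableAt.comp (𝕜 := ℂ) w (f := fun w' : ℂ => w' - w) h4 h5
    have h7 : (fun w : ℂ => F ![a, b, w]) =
        (fun t : ℂ => F (![a, b, w] + t • ![0, 0, 1])) ∘ (fun w' : ℂ => w' - w) := by
      funext w'
      simp only [Function.comp]
      congr 1
      ext i
      fin_cases i <;> simp
    rw [h7]
    exact h6.differentiableWithinAt
  intro z hz
  refine hd.analyticAt (isOpen_ball.mem_nhds ?_)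
  rw [mem_ball_zero_iff]
  have h3 : ‖z - c‖ ≤ R := by simpa [dist_eq_norm] using hz
  calc ‖z‖ = ‖(z - c) + c‖ := by congr 1; ring
    _ ≤ ‖z - c‖ + ‖(c : ℂ)‖ := norm_add_le _ _
    _ ≤ R + |c| := by
        have : ‖(c : ℂ)‖ = |c| := by simp
        rw [this]; linarith
    _ < ρ := by linarith

theorem dis (hPSM : T_PSM) (hHNK : T_HNK) (hPSA : T_PSA) : T_DIS := by
  intro F ρ c R a0 r hF hR hr hc h1 h2 hne
  have hmemb : ∀ a : ℝ × ℝ, a ∈ ball a0 r ↔ (|a.1 - a0.1| < r ∧ |a.2 - a0.2| < r) := by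
    intro a
    rw [mem_ball, Prod.dist_eq, max_lt_iff, Real.dist_eq, Real.dist_eq]
  have hinC : ∀ a ∈ ball a0 r, ‖((a.1 : ℂ)) - a0.1‖ < r ∧ ‖((a.2 : ℂ)) - a0.2‖ < r := by
    intro a ha
    obtain ⟨h3, h4⟩ := (hmemb a).1 ha
    constructor
    · rw [← Complex.ofReal_sub, Complex.norm_real]; exact h3
    · rw [← Complex.ofReal_sub, Complex.norm_real]; exact h4
  have key : ∀ a ∈ ball a0 r, ∃ m : Multiset ℂ,
      {z : ℂ | z ∈ ball (c : ℂ) R ∧ F ![(a.1 : ℂ), (a.2 : ℂ), z] = 0} = ↑m.toFinset ∧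
      ∀ k, psum F c R k ((a.1 : ℂ), (a.2 : ℂ)) = (m.map (· ^ k)).sum := by
    intro a ha
    obtain ⟨h3, h4⟩ := hinC a ha
    obtain ⟨h3', h4'⟩ := (hmemb a).1 ha
    have h5 : ‖((a.1 : ℂ))‖ < ρ := by
      rw [Complex.norm_real, Real.norm_eq_abs]
      have : |a.1| ≤ |a.1 - a0.1| + |a0.1| := by
        calc |a.1| = |(a.1 - a0.1) + a0.1| := by congr 1; ring
          _ ≤ _ := abs_add_le _ _
      linarith
    have h6 : ‖((a.2 : ℂ))‖ < ρ := by
      rw [Complex.norm_real, Real.norm_eq_abs]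
      have : |a.2| ≤ |a.2 - a0.2| + |a0.2| := by
        calc |a.2| = |(a.2 - a0.2) + a0.2| := by congr 1; ring
          _ ≤ _ := abs_add_le _ _
      linarith
    obtain ⟨m, hm1, hm2⟩ := hPSM c R (fun w : ℂ => F ![(a.1 : ℂ), (a.2 : ℂ), w]) hR
      (slice_an F ρ c R hF hc _ _ h5 h6) (fun z hz => hne ((a.1 : ℂ), (a.2 : ℂ)) h3 h4 z hz)
    refine ⟨m, ?_, fun k => hm2 k⟩
    ext z
    simp only [mem_setOf_eq, Finset.mem_coe, Multiset.mem_toFinset]
    exact (hm1 z).symm
  choose! m hm1 hm2 using key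
  have hnz : ∀ a ∈ ball a0 r, nz F c R a = (m a).toFinset.card := by
    intro a ha
    rw [nz, hm1 a ha, ncard_coe_finset]
  have hcpl : Continuous (fun a : ℝ × ℝ => ((a.1 : ℂ), (a.2 : ℂ))) := by fun_prop
  have hcont : ∀ k, ContinuousOn (fun a : ℝ × ℝ => psum F c R k ((a.1 : ℂ), (a.2 : ℂ))) (ball a0 r) := by
    intro k a ha
    obtain ⟨h3, h4⟩ := hinC a ha
    have h5 := (hPSA F ρ c R a0 r k hF hR hr hc h1 h2 hne ((a.1 : ℂ), (a.2 : ℂ)) h3 h4).1
    exact (ContinuousAt.comp (f := fun a : ℝ × ℝ => ((a.1 : ℂ), (a.2 : ℂ))) (x := a) h5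
      hcpl.continuousAt).continuousWithinAt
  -- the total number of zeros is constant
  have hcard : ContinuousOn (fun a : ℝ × ℝ => Multiset.card (m a)) (ball a0 r) := by
    have h3 : ContinuousOn (fun a : ℝ × ℝ => ((Multiset.card (m a) : ℕ) : ℝ)) (ball a0 r) := by
      have h4 := Complex.continuous_re.comp_continuousOn (hcont 0)
      refine h4.congr ?_
      intro a ha
      simp only [Function.comp]
      rw [hm2 a ha 0]
      simp
    exact (Nat.isClosedEmbedding_coe_real.isInducing.continuousOn_iff).2 h3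
  have hpre : IsPreconnected (ball a0 r) := (convex_ball a0 r).isPreconnected
  have ha0 : a0 ∈ ball a0 r := mem_ball_self hr
  have hconst : ∀ a ∈ ball a0 r, Multiset.card (m a) = Multiset.card (m a0) := by
    intro a ha
    exact hpre.constant hcard ha ha0
  have hbd : ∀ a ∈ ball a0 r, nz F c R a ≤ Multiset.card (m a0) := by
    intro a ha
    rw [hnz a ha, ← hconst a ha]
    exact Multiset.toFinset_card_le _
  obtain ⟨as, has, hmax⟩ : ∃ as ∈ ball a0 r, ∀ a ∈ ball a0 r, nz F c R a ≤ nz F c R as := by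
    have hne' : ((fun a => nz F c R a) '' ball a0 r).Nonempty := ⟨_, a0, ha0, rfl⟩
    have hba : BddAbove ((fun a => nz F c R a) '' ball a0 r) := by
      refine ⟨Multiset.card (m a0), ?_⟩
      rintro _ ⟨a, ha, rfl⟩
      exact hbd a ha
    obtain ⟨as, has, hE⟩ := Nat.sSup_mem hne' hba
    refine ⟨as, has, fun a ha => ?_⟩
    have h3 := le_csSup hba ⟨a, ha, rfl⟩
    simp only at hE h3
    rw [hE]; exact h3
  set d := nz F c R as with hd
  -- the determinant
  let Δ : ℂ × ℂ → ℂ := fun a => (Matrix.of fun i j : Fin d => psum F c R ((i : ℕ) + (j : ℕ)) a).det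
  have hΔm : ∀ a ∈ ball a0 r, Δ ((a.1 : ℂ), (a.2 : ℂ)) =
      (Matrix.of fun i j : Fin d => ((m a).map (· ^ ((i : ℕ) + (j : ℕ)))).sum).det := by
    intro a ha
    simp only [Δ]
    congr 1
    ext i j
    simp only [Matrix.of_apply]
    exact hm2 a ha _
  have hΔs : Δ ((as.1 : ℂ), (as.2 : ℂ)) ≠ 0 := by
    rw [hΔm as has]
    exact (hHNK (m as) d).2 (hnz as has).symm
  have hΔd : ∀ a ∈ ball a0 r, Δ ((a.1 : ℂ), (a.2 : ℂ)) ≠ 0 → nz F c R a = d := by
    intro a ha h3
    refine le_antisymm (hmax a ha) ?_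
    by_contra h4
    rw [hΔm a ha] at h3
    refine h3 ((hHNK (m a) d).1 ?_)
    rw [← hnz a ha]
    omega
  have hΔc : ContinuousOn (fun a : ℝ × ℝ => Δ ((a.1 : ℂ), (a.2 : ℂ))) (ball a0 r) := by
    rw [continuousOn_iff_continuous_restrict]
    simp only [Δ]
    refine Continuous.matrix_det ?_
    refine continuous_matrix ?_
    intro i j
    exact continuousOn_iff_continuous_restrict.1 (hcont _)
  refine ⟨d, {a | a ∈ ball a0 r ∧ Δ ((a.1 : ℂ), (a.2 : ℂ)) ≠ 0}, ?_, fun a ha => ha.1, ?_, ?_, ?_⟩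
  · exact hΔc.isOpen_inter_preimage isOpen_ball isOpen_compl_singleton
  · intro a ha
    -- the complex line through `a` and `as`
    let b : ℂ → ℂ × ℂ := fun t => ((a.1 : ℂ), (a.2 : ℂ)) + t • ((((as.1 - a.1 : ℝ) : ℂ)), ((as.2 - a.2 : ℝ) : ℂ))
    have hbc : Continuous b := by fun_prop
    let V : Set ℂ := {t | ‖(b t).1 - a0.1‖ < r ∧ ‖(b t).2 - a0.2‖ < r}
    have hVo : IsOpen V := by
      refine IsOpen.and ?_ ?_
      · exact isOpen_lt (by fun_prop) continuous_const
      · exact isOpen_lt (by fun_prop) continuous_const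
    have hVc : Convex ℝ V := by
      have e1 : Convex ℝ {t : ℂ | ‖(b t).1 - a0.1‖ < r} := by
        intro x hx y hy u v hu hv huv
        simp only [mem_setOf_eq] at hx hy ⊢
        have hE : (b (u • x + v • y)).1 - a0.1 = (u : ℂ) * ((b x).1 - a0.1) + (v : ℂ) * ((b y).1 - a0.1) := by
          have huv' : (u : ℂ) + (v : ℂ) = 1 := by exact_mod_cast huv
          simp only [b, Prod.fst_add, Prod.smul_fst, smul_eq_mul, Complex.real_smul]
          linear_combination (a0.1 - a.1 : ℂ) * huv'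
        rw [hE]
        calc ‖(u : ℂ) * ((b x).1 - a0.1) + (v : ℂ) * ((b y).1 - a0.1)‖
            ≤ ‖(u : ℂ) * ((b x).1 - a0.1)‖ + ‖(v : ℂ) * ((b y).1 - a0.1)‖ := norm_add_le _ _
          _ = u * ‖(b x).1 - a0.1‖ + v * ‖(b y).1 - a0.1‖ := by
              rw [norm_mul, norm_mul, Complex.norm_real, Complex.norm_real, Real.norm_of_nonneg hu,
                Real.norm_of_nonneg hv]
          _ < r := by
              rcases eq_or_lt_of_le hu with h | h
              · subst h
                have : v = 1 := by linarith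
                subst this; linarith
              · nlinarith [mul_lt_mul_of_pos_left hx h, mul_le_mul_of_nonneg_left hy.le hv]
      have e2 : Convex ℝ {t : ℂ | ‖(b t).2 - a0.2‖ < r} := by
        intro x hx y hy u v hu hv huv
        simp only [mem_setOf_eq] at hx hy ⊢
        have hE : (b (u • x + v • y)).2 - a0.2 = (u : ℂ) * ((b x).2 - a0.2) + (v : ℂ) * ((b y).2 - a0.2) := by
          have huv' : (u : ℂ) + (v : ℂ) = 1 := by exact_mod_cast huv
          simp only [b, Prod.snd_add, Prod.smul_snd, smul_eq_mul, Complex.real_smul]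
          linear_combination (a0.2 - a.2 : ℂ) * huv'
        rw [hE]
        calc ‖(u : ℂ) * ((b x).2 - a0.2) + (v : ℂ) * ((b y).2 - a0.2)‖
            ≤ ‖(u : ℂ) * ((b x).2 - a0.2)‖ + ‖(v : ℂ) * ((b y).2 - a0.2)‖ := norm_add_le _ _
          _ = u * ‖(b x).2 - a0.2‖ + v * ‖(b y).2 - a0.2‖ := by
              rw [norm_mul, norm_mul, Complex.norm_real, Complex.norm_real, Real.norm_of_nonneg hu,
                Real.norm_of_nonneg hv]
          _ < r := by
              rcases eq_or_lt_of_le hu with h | h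
              · subst h
                have : v = 1 := by linarith
                subst this; linarith
              · nlinarith [mul_lt_mul_of_pos_left hx h, mul_le_mul_of_nonneg_left hy.le hv]
      exact e1.inter e2
    have hb0 : b 0 = ((a.1 : ℂ), (a.2 : ℂ)) := by simp [b]
    have hb1 : b 1 = ((as.1 : ℂ), (as.2 : ℂ)) := by
      simp [b]
    have h0V : (0 : ℂ) ∈ V := by
      simp only [V, mem_setOf_eq, hb0]; exact hinC a ha
    have h1V : (1 : ℂ) ∈ V := by
      simp only [V, mem_setOf_eq, hb1]; exact hinC as has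
    have hps : ∀ k, DifferentiableOn ℂ (fun t => psum F c R k (b t)) V := by
      intro k t ht
      have h3 := (hPSA F ρ c R a0 r k hF hR hr hc h1 h2 hne (b t) ht.1 ht.2).2
        ((((as.1 - a.1 : ℝ) : ℂ)), ((as.2 - a.2 : ℝ) : ℂ))
      have h4 : DifferentiableAt ℂ (fun s : ℂ => psum F c R k (b t + s •
        ((((as.1 - a.1 : ℝ) : ℂ)), ((as.2 - a.2 : ℝ) : ℂ)))) (t - t) := by
        rw [sub_self]; exact h3
      have h5 : DifferentiableAt ℂ (fun w' : ℂ => w' - t) t := by fun_prop
      have h6 := DifferentiableAt.comp (𝕜 := ℂ) t (f := fun w' : ℂ => w' - t) h4 h5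
      have h7 : (fun t => psum F c R k (b t)) = (fun s : ℂ => psum F c R k (b t + s •
        ((((as.1 - a.1 : ℝ) : ℂ)), ((as.2 - a.2 : ℝ) : ℂ)))) ∘ (fun w' : ℂ => w' - t) := by
        funext w'
        simp only [Function.comp]
        congr 1
        simp only [b]
        rw [add_assoc, ← add_smul]
        congr 2
        ring
      rw [h7]
      exact h6.differentiableWithinAt
    have hΔdif : DifferentiableOn ℂ (fun t => Δ (b t)) V := by
      simp only [Δ, Matrix.det_apply]
      refine DifferentiableOn.fun_sum ?_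
      intro σ _
      refine DifferentiableOn.const_smul ?_ _
      refine DifferentiableOn.fun_finsetProd ?_
      intro i _
      simp only [Matrix.of_apply]
      exact hps _
    have hΔan : AnalyticOnNhd ℂ (fun t => Δ (b t)) V := hΔdif.analyticOnNhd hVo
    have hev : ∀ᶠ t in 𝓝[≠] (0 : ℂ), Δ (b t) ≠ 0 := by
      by_contra hcon
      have hfr : ∃ᶠ t in 𝓝[≠] (0 : ℂ), Δ (b t) = 0 := by
        rw [Filter.Frequently]
        exact hcon
      have h3 := hΔan.eqOn_zero_of_preconnected_of_frequently_eq_zero hVc.isPreconnected h0V hfr h1V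
      simp only [Pi.zero_apply] at h3
      rw [hb1] at h3
      exact hΔs h3
    -- transfer to real parameters
    have hreal : Tendsto (fun t : ℝ => (t : ℂ)) (𝓝[≠] (0 : ℝ)) (𝓝[≠] (0 : ℂ)) := by
      refine tendsto_nhdsWithin_iff.2 ⟨?_, ?_⟩
      · have : Tendsto (fun t : ℝ => (t : ℂ)) (𝓝 (0 : ℝ)) (𝓝 ((0 : ℝ) : ℂ)) :=
          Complex.continuous_ofReal.continuousAt
        simpa using this.mono_left nhdsWithin_le_nhds
      · filter_upwards [self_mem_nhdsWithin] with t ht
        simpa using ht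
    have hev' := hreal.eventually hev
    have hten : Tendsto (fun t : ℝ => a + t • (as - a)) (𝓝[≠] (0 : ℝ)) (𝓝 a) := by
      have h3 : Continuous (fun t : ℝ => a + t • (as - a)) := by fun_prop
      have h4 := h3.tendsto 0
      simp only [zero_smul, add_zero] at h4
      exact h4.mono_left nhdsWithin_le_nhds
    refine mem_closure_of_tendsto hten ?_
    filter_upwards [hev', hten.eventually (isOpen_ball.mem_nhds ha)] with t ht1 ht2
    refine ⟨ht2, ?_⟩
    have h3 : b (t : ℂ) = ((((a + t • (as - a)).1 : ℝ) : ℂ), (((a + t • (as - a)).2 : ℝ) : ℂ)) := by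
      simp [b]
    rw [← h3]
    exact ht1
  · intro a ha
    refine ⟨?_, hmax a ha⟩
    rw [hm1 a ha]
    exact Finset.finite_toSet _
  · intro a ha
    exact hΔd a ha.1 ha.2

end Pool.Agent.H11.IC
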