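import Pool.Agent.H94.IC.Targets1

/-!
Module PRS: zeros persist.
-/

set_option autoImplicit false

open Set Filter Topology Metric

namespace Pool.Agent.H11.IC

open Pool.Agent.H94.IC (T_PRS)

theorem prs : T_PRS := by
  intro X _ g x0 z0 ε hε hcont hdiff h0 hsph
  have hScomp : IsCompact (sphere z0 ε) := isCompact_sphere z0 ε
  have hSne : (sphere z0 ε).Nonempty := NormedSpace.sphere_nonempty.2 hε.le
  have hS : sphere z0 ε ⊆ closedBall z0 ε := sphere_subset_closedBall
  have hgx : ∀ x, ContinuousOn (g x) (closedBall z0 ε) := by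
    intro x
    exact hcont.comp (f := fun z : ℂ => (x, z)) (by fun_prop) (fun z hz => ⟨mem_univ _, hz⟩)
  obtain ⟨zm, hzm, hmin⟩ := hScomp.exists_isMinOn hSne (((hgx x0).mono hS).norm)
  set μ : ℝ := ‖g x0 zm‖ with hμ
  have hμ0 : 0 < μ := norm_pos_iff.2 (hsph zm hzm)
  -- uniform closeness on the sphere
  have hev1 : ∀ᶠ x in 𝓝 x0, ∀ z ∈ sphere z0 ε, ‖g x z - g x0 z‖ < μ / 2 := by
    have hc : ContinuousOn (fun q : X × ℂ => ‖g q.1 q.2 - g x0 q.2‖) (univ ×ˢ closedBall z0 ε) := by
      apply ContinuousOn.norm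
      apply hcont.sub
      exact (hgx x0).comp continuousOn_snd (fun q hq => hq.2)
    have h6 := hScomp.eventually_forall_of_forall_eventually (x₀ := x0)
      (P := fun x z => z ∈ sphere z0 ε → ‖g x z - g x0 z‖ < μ / 2) (by
        intro z hz
        have h1 := hc (x0, z) ⟨mem_univ _, hS hz⟩
        have h2 : ‖g x0 z - g x0 z‖ < μ / 2 := by
          rw [sub_self, norm_zero]
          positivity
        have h3 := h1.eventually (Iio_mem_nhds h2)
        rw [eventually_nhdsWithin_iff] at h3
        filter_upwards [h3] with q hq hq2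
        exact hq ⟨mem_univ _, hS hq2⟩)
    filter_upwards [h6] with x hx z hz
    exact hx z hz hz
  have hev2 : ∀ᶠ x in 𝓝 x0, ‖g x z0‖ < μ / 2 := by
    have h1 : ContinuousAt (fun x : X => g x z0) x0 := by
      have h2 := hcont (x0, z0) ⟨mem_univ _, mem_closedBall_self hε.le⟩
      have h3 : Tendsto (fun x : X => (x, z0)) (𝓝 x0) (𝓝[univ ×ˢ closedBall z0 ε] (x0, z0)) := by
        apply tendsto_nhdsWithin_of_tendsto_nhds_of_eventually_within
        · exact (Continuous.prodMk_left z0).continuousAt
        · exact Eventually.of_forall fun x => ⟨mem_univ _, mem_closedBall_self hε.le⟩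
      exact h2.tendsto.comp h3
    have h2 : ‖g x0 z0‖ < μ / 2 := by
      rw [h0, norm_zero]
      positivity
    exact h1.norm.eventually (Iio_mem_nhds h2)
  filter_upwards [hev1, hev2] with x h1 h2
  by_contra hcon
  push Not at hcon
  have hsx : ∀ z ∈ sphere z0 ε, μ / 2 ≤ ‖g x z‖ := by
    intro z hz
    have h3 := h1 z hz
    have h4 : μ ≤ ‖g x0 z‖ := hmin hz
    have h5 := norm_sub_norm_le (g x0 z) (g x z)
    rw [norm_sub_rev] at h5
    linarith
  have hne : ∀ z ∈ closedBall z0 ε, g x z ≠ 0 := by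
    intro z hz
    rcases (mem_closedBall.1 hz).lt_or_eq with h3 | h3
    · exact hcon z h3
    · intro h4
      have h5 := hsx z (mem_sphere.2 h3)
      rw [h4, norm_zero] at h5
      linarith
  have hd : DiffContOnCl ℂ (fun z => (g x z)⁻¹) (ball z0 ε) := by
    constructor
    · exact (hdiff x).inv fun z hz => hne z (ball_subset_closedBall hz)
    · rw [closure_ball z0 hε.ne']
      exact (hgx x).inv₀ hne
  have h3 := Complex.norm_le_of_forall_mem_frontier_norm_le isBounded_ball hd (C := 2 / μ) (by
    intro z hz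
    rw [frontier_ball z0 hε.ne'] at hz
    rw [norm_inv, inv_le_comm₀ (norm_pos_iff.2 (hne z (hS hz))) (by positivity), inv_div]
    exact hsx z hz) (subset_closure (mem_ball_self hε))
  rw [norm_inv, inv_le_comm₀ (norm_pos_iff.2 (hne z0 (mem_closedBall_self hε.le))) (by positivity),
    inv_div] at h3
  linarith

end Pool.Agent.H11.IC
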