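import Pool.Agent.H94.IC.Targets1
import Pool.Agent.H18.PZ.Fac

/-!
Module PSM: power sums of the zeros as contour integrals.
-/

set_option autoImplicit false

open Set Filter Topology Metric

namespace Pool.Agent.H11.IC

open Pool.Agent.H94.IC (T_PSM)
open Pool.Agent.H18.PZ (factor factor_logDeriv zeros_finite order_ne_top)

theorem psm : T_PSM := by
  classical
  intro c R g hR hg hsph
  have hpi : (2 * Real.pi * Complex.I : ℂ) ≠ 0 := Complex.two_pi_I_ne_zero
  have hU : IsPreconnected (closedBall c R) := (convex_closedBall c R).isPreconnected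
  obtain ⟨s0, hs0⟩ : (sphere c R).Nonempty := NormedSpace.sphere_nonempty.2 hR.le
  have hs0U : s0 ∈ closedBall c R := sphere_subset_closedBall hs0
  have hfin : {z | z ∈ closedBall c R ∧ g z = 0}.Finite :=
    zeros_finite hU hg hs0U (hsph s0 hs0) (isCompact_closedBall c R) le_rfl
  set Z : Finset ℂ := hfin.toFinset with hZdef
  have hZ : ∀ z, z ∈ Z ↔ z ∈ ball c R ∧ g z = 0 := by
    intro z
    rw [hZdef, Set.Finite.mem_toFinset, mem_ofPred_eq]
    constructor
    · rintro ⟨h1, h2⟩
      refine ⟨?_, h2⟩
      rcases (mem_closedBall.1 h1).lt_or_eq with h3 | h3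
      · exact h3
      · exact absurd h2 (hsph z (mem_sphere.2 h3))
    · rintro ⟨h1, h2⟩
      exact ⟨ball_subset_closedBall h1, h2⟩
  have htop : ∀ z ∈ closedBall c R, analyticOrderAt g z ≠ ⊤ := fun z hz =>
    order_ne_top hU hg hs0U (hsph s0 hs0) hz
  obtain ⟨g1, hg1, hfac, hg1Z⟩ := factor (U := closedBall c R) hg Z
    (fun z hz => ⟨ball_subset_closedBall ((hZ z).1 hz).1, htop z (ball_subset_closedBall ((hZ z).1 hz).1)⟩)
  set n : ℂ → ℕ := fun z => analyticOrderNatAt g z with hn
  have hn0 : ∀ z ∈ Z, n z ≠ 0 := by
    intro z hz h0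
    have h1 := (hZ z).1 hz
    have h2 := ball_subset_closedBall h1.1
    have h3 : analyticOrderAt g z = 0 := by
      rw [← Nat.cast_analyticOrderNatAt (htop z h2)]
      exact_mod_cast h0
    rw [(hg z h2).analyticOrderAt_eq_zero] at h3
    exact h3 h1.2
  have hg1ne : ∀ z ∈ closedBall c R, g1 z ≠ 0 := by
    intro z hz
    by_cases hzZ : z ∈ Z
    · exact hg1Z z hzZ
    · intro h0
      apply hzZ
      rw [hZdef, Set.Finite.mem_toFinset]
      refine ⟨hz, ?_⟩
      rw [hfac z, h0, mul_zero]
  refine ⟨∑ z ∈ Z, Multiset.replicate (n z) z, ?_, ?_⟩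
  · intro z
    rw [Multiset.mem_sum]
    constructor
    · rintro ⟨w, hw, hzw⟩
      rw [Multiset.mem_replicate] at hzw
      rw [hzw.2]
      exact (hZ w).1 hw
    · intro hz
      have h1 := (hZ z).2 hz
      exact ⟨z, h1, Multiset.mem_replicate.2 ⟨hn0 z h1, rfl⟩⟩
  · intro k
    have hsum : ((∑ z ∈ Z, Multiset.replicate (n z) z).map (· ^ k)).sum =
        ∑ z ∈ Z, (n z : ℂ) * z ^ k := by
      have h1 := map_sum (Multiset.sumAddMonoidHom.comp (Multiset.mapAddMonoidHom (fun z : ℂ => z ^ k)))
        (fun z => Multiset.replicate (n z) z) Z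
      simp only [AddMonoidHom.comp_apply, Multiset.coe_mapAddMonoidHom,
        Multiset.coe_sumAddMonoidHom] at h1
      rw [h1]
      apply Finset.sum_congr rfl
      intro z _
      simp
    rw [hsum]
    have hcont1 : ContinuousOn (fun z => z ^ k * (deriv g1 z / g1 z)) (closedBall c R) := by
      intro z hz
      have h1 := hg1 z hz
      exact ((continuous_pow k).continuousAt.mul
        (h1.deriv.continuousAt.div h1.continuousAt (hg1ne z hz))).continuousWithinAt
    have hzero : (∮ z in C(c, R), z ^ k * (deriv g1 z / g1 z)) = 0 := by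
      apply Complex.circleIntegral_eq_zero_of_differentiable_on_off_countable hR.le
        countable_empty hcont1
      intro z hz
      have hz' : z ∈ closedBall c R := ball_subset_closedBall hz.1
      have h1 := hg1 z hz'
      exact (differentiableAt_id.pow k).mul
        (h1.deriv.differentiableAt.div h1.differentiableAt (hg1ne z hz'))
    have hcau : ∀ w ∈ Z, (∮ z in C(c, R), z ^ k * (1 / (z - w))) =
        2 * Real.pi * Complex.I * w ^ k := by
      intro w hw
      have h1 := ((hZ w).1 hw).1
      have hd : DiffContOnCl ℂ (fun z : ℂ => z ^ k) (ball c R) :=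
        (differentiable_id.pow k).diffContOnCl
      have h2 := hd.circleIntegral_sub_inv_smul h1
      rw [smul_eq_mul] at h2
      rw [← h2]
      congr 1
      funext z
      rw [smul_eq_mul]
      ring
    have hint : ∀ w ∈ Z, CircleIntegrable (fun z => (n w : ℂ) * (z ^ k * (1 / (z - w)))) c R := by
      intro w hw
      apply ContinuousOn.circleIntegrable hR.le
      intro z hz
      have hzw : z - w ≠ 0 := by
        rw [sub_ne_zero]
        rintro rfl
        have h1 := ((hZ z).1 hw).1
        rw [mem_ball] at h1
        rw [mem_sphere] at hz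
        linarith
      have : ContinuousAt (fun z : ℂ => (n w : ℂ) * (z ^ k * (1 / (z - w)))) z := by
        apply continuousAt_const.mul
        apply (continuous_pow k).continuousAt.mul
        exact continuousAt_const.div (by fun_prop) hzw
      exact this.continuousWithinAt
    have hsplit : (∮ z in C(c, R), z ^ k * (deriv g z / g z)) =
        ∮ z in C(c, R), ((∑ w ∈ Z, (n w : ℂ) * (z ^ k * (1 / (z - w)))) +
          z ^ k * (deriv g1 z / g1 z)) := by
      apply circleIntegral.integral_congr hR.le
      intro z hz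
      simp only
      rw [factor_logDeriv hfac (hg1 z (sphere_subset_closedBall hz)).differentiableAt (hsph z hz),
        mul_add, Finset.mul_sum]
      congr 1
      apply Finset.sum_congr rfl
      intro w _
      ring
    have hIsum : (∮ z in C(c, R), ∑ w ∈ Z, (n w : ℂ) * (z ^ k * (1 / (z - w)))) =
        ∑ w ∈ Z, (n w : ℂ) * (2 * Real.pi * Complex.I * w ^ k) := by
      have h1 : (∮ z in C(c, R), ∑ w ∈ Z, (n w : ℂ) * (z ^ k * (1 / (z - w)))) =
          ∑ w ∈ Z, ∮ z in C(c, R), (n w : ℂ) * (z ^ k * (1 / (z - w))) := by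
        simp only [circleIntegral, Finset.smul_sum]
        exact intervalIntegral.integral_finsetSum fun w hw => (hint w hw).out
      rw [h1]
      apply Finset.sum_congr rfl
      intro w hw
      rw [← hcau w hw]
      have h2 := circleIntegral.integral_smul (n w : ℂ) (fun z : ℂ => z ^ k * (1 / (z - w))) c R
      simpa only [smul_eq_mul] using h2
    have hi1 : CircleIntegrable (fun z => ∑ w ∈ Z, (n w : ℂ) * (z ^ k * (1 / (z - w)))) c R := by
      have := CircleIntegrable.sum Z hint
      convert! this using 1
      funext z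
      simp
    have hi2 : CircleIntegrable (fun z => z ^ k * (deriv g1 z / g1 z)) c R :=
      (hcont1.mono sphere_subset_closedBall).circleIntegrable hR.le
    rw [hsplit, circleIntegral.integral_add hi1 hi2, hzero, add_zero, hIsum, Finset.mul_sum]
    apply Finset.sum_congr rfl
    intro w _
    field_simp

end Pool.Agent.H11.IC
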